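import Pool.Agent.N418.CZ.Stm

/-! # Log-convexity (helper55, project CZ of helper418) -/

set_option autoImplicit false

namespace Pool.Agent.N55.CZ

open Pool.Agent.N418.CZ Module

theorem t_LC : S_AT → S_CH1 → S_CH2 → S_CH3 → S_LC := by
  intro hAT h1 h2 h3 k n _
  have a1 := h1 k n
  have a2 := h2 k n
  have a3 := h3 k n
  rw [← hAT] at a1 a2 a3
  have hN : (0 : ℝ) < (n.factorial : ℝ) := by exact_mod_cast n.factorial_pos
  rw [div_le_iff₀ hN] at a1 a3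
  rw [le_div_iff₀ hN] at a2
  have cs := Finset.sum_mul_sq_le_sq_mul_sq (Finset.univ : Finset (Equiv.Perm (Fin n)))
    (fun g => ltrace (A k n) (Pi g)) (fun g => ltrace (A k (n + 1)) (Pi (ext1 g)))
  have b2 : ((t k (n + 1) : ℝ) * (n.factorial : ℝ)) ^ 2 ≤
      (∑ g : Equiv.Perm (Fin n), ltrace (A k n) (Pi g) * ltrace (A k (n + 1)) (Pi (ext1 g))) ^ 2 :=
    pow_le_pow_left₀ (by positivity) a2 2
  have b3 : (∑ g : Equiv.Perm (Fin n), ltrace (A k n) (Pi g) ^ 2) *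
      (∑ g : Equiv.Perm (Fin n), ltrace (A k (n + 1)) (Pi (ext1 g)) ^ 2) ≤
      ((t k n : ℝ) * (n.factorial : ℝ)) * ((t k (n + 2) : ℝ) * (n.factorial : ℝ)) :=
    mul_le_mul a1 a3 (Finset.sum_nonneg fun _ _ => sq_nonneg _) (by positivity)
  have b4 := (b2.trans cs).trans b3
  have b5 : ((t k (n + 1) : ℝ)) ^ 2 * (n.factorial : ℝ) ^ 2 ≤
      ((t k n : ℝ) * (t k (n + 2) : ℝ)) * (n.factorial : ℝ) ^ 2 := by
    calc _ = ((t k (n + 1) : ℝ) * (n.factorial : ℝ)) ^ 2 := by ring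
      _ ≤ _ := b4
      _ = _ := by ring
  have b6 := le_of_mul_le_mul_right b5 (by positivity)
  exact_mod_cast b6

end Pool.Agent.N55.CZ
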